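import Pool.Agent.H500.HC.Stm

set_option autoImplicit false
set_option linter.unusedSectionVars false

/-!
# Part A5 of project HC (helper500), by helper870: density zero over `E` for elements of `ZBar`
-/

namespace Pool.Agent.H870.HC.KD

open NumberField IsDedekindDomain Filter Topology
open Pool.Agent.W401.Cheb (dens)
open Pool.Agent.W569.FM (OO GF)
open Pool.Agent.H500.HC

section desc

variable {E F V : Type} [Field E] [NumberField E] [Field F] [NumberField F] [Algebra E F]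

/-- clearing denominators -/
theorem exists_den (A : V → 𝓞 F) (x : F)
    (hx : x ∈ Algebra.adjoin E (Set.range fun v => (A v : F))) :
    ∃ D : ℕ, 0 < D ∧ ∃ y ∈ Algebra.adjoin (𝓞 E) (Set.range A), (y : F) = (D : F) * x := by
  refine Algebra.adjoin_induction (p := fun x _ => ∃ D : ℕ, 0 < D ∧
    ∃ y ∈ Algebra.adjoin (𝓞 E) (Set.range A), (y : F) = (D : F) * x) ?_ ?_ ?_ ?_ hx
  · rintro x ⟨v, rfl⟩
    exact ⟨1, one_pos, A v, Algebra.subset_adjoin ⟨v, rfl⟩, by simp⟩
  · intro e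
    have halg : IsAlgebraic ℤ e := by
      have h1 : Algebra.IsAlgebraic ℚ E := inferInstance
      exact (IsFractionRing.isAlgebraic_iff ℤ ℚ E).2 (h1.isAlgebraic e)
    obtain ⟨c, hc, hci⟩ := halg.exists_integral_multiple
    refine ⟨c.natAbs, Int.natAbs_pos.2 hc, ?_⟩
    have hci' : IsIntegral ℤ ((c.natAbs : E) * e) := by
      have h1 : IsIntegral ℤ ((c : E) * e) := by
        rw [← zsmul_eq_mul]
        exact hci
      rcases Int.natAbs_eq c with h | h
      · have h2 : (c : E) = (c.natAbs : E) := by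
          conv_lhs => rw [h]
          exact Int.cast_natCast _
        rwa [h2] at h1
      · have h2 : (c : E) = -(c.natAbs : E) := by
          conv_lhs => rw [h]
          rw [Int.cast_neg, Int.cast_natCast]
        rw [h2, neg_mul] at h1
        simpa using h1.neg
    refine ⟨algebraMap (𝓞 E) (𝓞 F) ⟨_, hci'⟩, Subalgebra.algebraMap_mem _ _, ?_⟩
    show algebraMap E F ((c.natAbs : E) * e) = _
    rw [map_mul, map_natCast]
  · rintro a b - - ⟨D1, h1, y1, hy1, e1⟩ ⟨D2, h2, y2, hy2, e2⟩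
    refine ⟨D1 * D2, Nat.mul_pos h1 h2, (D2 : 𝓞 F) * y1 + (D1 : 𝓞 F) * y2, ?_, ?_⟩
    · refine Subalgebra.add_mem _ (Subalgebra.mul_mem _ (Subalgebra.natCast_mem _ _) hy1)
        (Subalgebra.mul_mem _ (Subalgebra.natCast_mem _ _) hy2)
    · have h3 : (((D2 : 𝓞 F) * y1 + (D1 : 𝓞 F) * y2 : 𝓞 F) : F) =
          (D2 : F) * (y1 : F) + (D1 : F) * (y2 : F) := by simp
      rw [h3, e1, e2]
      push_cast
      ring
  · rintro a b - - ⟨D1, h1, y1, hy1, e1⟩ ⟨D2, h2, y2, hy2, e2⟩
    refine ⟨D1 * D2, Nat.mul_pos h1 h2, y1 * y2, Subalgebra.mul_mem _ hy1 hy2, ?_⟩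
    have h3 : ((y1 * y2 : 𝓞 F) : F) = (y1 : F) * (y2 : F) := by simp
    rw [h3, e1, e2]
    push_cast
    ring

/-- a common denominator -/
theorem exists_common (A : V → 𝓞 F)
    (hF : ∀ x : F, x ∈ Algebra.adjoin E (Set.range fun v => (A v : F))) :
    ∃ D : ℕ, 0 < D ∧ ∀ x : 𝓞 F, (D : 𝓞 F) * x ∈ Algebra.adjoin (𝓞 E) (Set.range A) := by
  classical
  let b := RingOfIntegers.basis F
  choose D hD y hy e using fun i => exists_den A ((b i : 𝓞 F) : F) (hF _)
  refine ⟨∏ i, D i, Finset.prod_pos fun i _ => hD i, fun x => ?_⟩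
  have hk : ∀ i, ∃ k : ℕ, ∏ j, D j = D i * k := fun i => Finset.dvd_prod_of_mem D (Finset.mem_univ i)
  choose k hk using hk
  have hx : x = ∑ i, b.repr x i • b i := (b.sum_repr x).symm
  have h5 : ((∏ i, D i : ℕ) : 𝓞 F) * x = ∑ i, ((b.repr x i : ℤ) : 𝓞 F) * ((k i : 𝓞 F) * y i) := by
    conv_lhs => rw [hx, Finset.mul_sum]
    refine Finset.sum_congr rfl fun i _ => ?_
    have h6 : y i = (D i : 𝓞 F) * b i := by
      apply RingOfIntegers.ext
      rw [e i]
      show _ = algebraMap (𝓞 F) F ((D i : 𝓞 F) * b i)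
      rw [map_mul, map_natCast]
    rw [h6, hk i, zsmul_eq_mul]
    push_cast
    ring
  rw [h5]
  refine Subalgebra.sum_mem _ fun i _ => ?_
  exact Subalgebra.mul_mem _ (Subalgebra.intCast_mem _ _)
    (Subalgebra.mul_mem _ (Subalgebra.natCast_mem _ _) (hy i))

/-- **Density zero over a subfield.** -/
theorem descend (A : V → 𝓞 F)
    (hF : ∀ x : F, x ∈ Algebra.adjoin E (Set.range fun v => (A v : F)))
    (P' : HeightOneSpectrum (𝓞 F) → Prop) (hd1 : Tendsto (dens P') atTop (𝓝 0))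
    (P : HeightOneSpectrum (𝓞 E) → Prop)
    (hP : ∀ v, P v → ∃ (k' : Type) (_ : Field k') (φ : 𝓞 F →+* k'),
      RingHom.ker (φ.comp (algebraMap (𝓞 E) (𝓞 F))) = v.asIdeal ∧
      (∀ i, ∃ a : 𝓞 E, φ (A i) = φ (algebraMap (𝓞 E) (𝓞 F) a)) ∧
      ∀ μ : HeightOneSpectrum (𝓞 F), RingHom.ker φ = μ.asIdeal → P' μ) :
    Tendsto (dens P) atTop (𝓝 0) := by
  classical
  obtain ⟨D, hD, hDx⟩ := exists_common A hF
  have hd2 := Pool.Agent.H500.Kum.dens_fin (fun v : HeightOneSpectrum (𝓞 E) =>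
    (D : 𝓞 E) ∈ v.asIdeal) (Pool.Agent.H500.Kum.fin_mem (Nat.cast_ne_zero.2 hD.ne'))
  have key : ∀ v : HeightOneSpectrum (𝓞 E), P v ∧ (D : 𝓞 E) ∉ v.asIdeal →
      ∃ μ : HeightOneSpectrum (𝓞 F), P' μ ∧ Ideal.absNorm μ.asIdeal = Ideal.absNorm v.asIdeal ∧
        μ.asIdeal.comap (algebraMap (𝓞 E) (𝓞 F)) = v.asIdeal := by
    rintro v ⟨hv, hDv⟩
    obtain ⟨k', _, φ, hker, hAv, hP'⟩ := hP v hv
    have hcm : (RingHom.ker φ).comap (algebraMap (𝓞 E) (𝓞 F)) = v.asIdeal := by
      rw [← hker]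
      rfl
    have hne : RingHom.ker φ ≠ ⊥ := by
      intro h0
      rw [h0] at hcm
      apply v.ne_bot
      rw [← hcm, eq_bot_iff]
      intro x hx
      rw [Ideal.mem_comap, Ideal.mem_bot] at hx
      rw [Ideal.mem_bot]
      have hinj : Function.Injective (algebraMap (𝓞 E) (𝓞 F)) :=
        FaithfulSMul.algebraMap_injective _ _
      exact hinj (hx.trans (map_zero _).symm)
    have hprime : (RingHom.ker φ).IsPrime := RingHom.ker_isPrime φ
    set μ : HeightOneSpectrum (𝓞 F) := ⟨RingHom.ker φ, hprime, hne⟩ with hμ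
    have hrange : φ.range = (φ.comp (algebraMap (𝓞 E) (𝓞 F))).range := by
      apply le_antisymm
      · rintro _ ⟨x, rfl⟩
        have hy := hDx x
        obtain ⟨e, he⟩ : ∃ e : 𝓞 E, (D : 𝓞 E) * e - 1 ∈ v.asIdeal := by
          have hmax := v.isMaximal
          obtain ⟨e, m, hm, hem⟩ := hmax.exists_inv hDv
          refine ⟨e, ?_⟩
          have : (D : 𝓞 E) * e - 1 = -m := by
            rw [← hem]
            ring
          rw [this]
          exact v.asIdeal.neg_mem hm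
        have hy1 : φ ((D : 𝓞 F) * x) ∈ (φ.comp (algebraMap (𝓞 E) (𝓞 F))).range := by
          refine Algebra.adjoin_induction (p := fun y _ => φ y ∈
            (φ.comp (algebraMap (𝓞 E) (𝓞 F))).range) ?_ ?_ ?_ ?_ hy
          · rintro _ ⟨i, rfl⟩
            obtain ⟨a, ha⟩ := hAv i
            exact ⟨a, ha.symm⟩
          · intro z
            exact ⟨z, rfl⟩
          · intro z w _ _ hz hw
            rw [map_add]
            exact Subring.add_mem _ hz hw
          · intro z w _ _ hz hw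
            rw [map_mul]
            exact Subring.mul_mem _ hz hw
        have he1 : φ (algebraMap (𝓞 E) (𝓞 F) e) * (D : k') = 1 := by
          have h1 : (D : 𝓞 E) * e - 1 ∈ RingHom.ker (φ.comp (algebraMap (𝓞 E) (𝓞 F))) := by
            rw [hker]
            exact he
          rw [RingHom.mem_ker, map_sub, map_mul, map_natCast, map_one, sub_eq_zero] at h1
          rw [mul_comm]
          exact h1
        have hfin : φ x = φ (algebraMap (𝓞 E) (𝓞 F) e) * φ ((D : 𝓞 F) * x) := by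
          rw [map_mul, map_natCast, ← mul_assoc, he1, one_mul]
        rw [hfin]
        exact Subring.mul_mem _ ⟨e, rfl⟩ hy1
      · rintro _ ⟨x, rfl⟩
        exact ⟨algebraMap (𝓞 E) (𝓞 F) x, rfl⟩
    refine ⟨μ, hP' μ rfl, ?_, hcm⟩
    rw [Pool.Agent.H500.Desc.norm_ker φ μ rfl,
      Pool.Agent.H500.Desc.norm_ker (φ.comp (algebraMap (𝓞 E) (𝓞 F))) v hker, hrange]
  choose f hf1 hf2 hf3 using key
  have hd3 : ∀ N, dens (fun v => P v ∧ (D : 𝓞 E) ∉ v.asIdeal) N ≤ dens P' N := by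
    intro N
    unfold dens
    apply div_le_div_of_nonneg_right _ (Nat.cast_nonneg _)
    have hfin : Finite {μ : HeightOneSpectrum (𝓞 F) // Ideal.absNorm μ.asIdeal ≤ N ∧ P' μ} :=
      ((Pool.Agent.W352.ChAbs.finite_le (K := F) N).subset (fun v hv => hv.1) :
        {μ : HeightOneSpectrum (𝓞 F) | Ideal.absNorm μ.asIdeal ≤ N ∧ P' μ}.Finite)
    have h1 := Nat.card_le_card_of_injective
      (fun v : {v : HeightOneSpectrum (𝓞 E) // Ideal.absNorm v.asIdeal ≤ N ∧ P v ∧
        (D : 𝓞 E) ∉ v.asIdeal} => (⟨f v.1 v.2.2, by rw [hf2]; exact v.2.1, hf1 _ _⟩ :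
          {μ : HeightOneSpectrum (𝓞 F) // Ideal.absNorm μ.asIdeal ≤ N ∧ P' μ})) (by
      intro v w hvw
      have h2 : f v.1 v.2.2 = f w.1 w.2.2 := congrArg Subtype.val hvw
      apply Subtype.ext
      apply HeightOneSpectrum.ext
      rw [← hf3 v.1 v.2.2, ← hf3 w.1 w.2.2, h2])
    exact_mod_cast h1
  have hsum := hd2.add hd1
  rw [add_zero] at hsum
  refine squeeze_zero (fun N => Pool.Agent.W528.Ord.dens_nonneg _ N) (fun N => ?_) hsum
  refine le_trans (Pool.Agent.W528.Ord.dens_mono (Q := fun v => (D : 𝓞 E) ∈ v.asIdeal ∨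
    (P v ∧ (D : 𝓞 E) ∉ v.asIdeal)) ?_ N) ((Pool.Agent.W528.Ord.dens_or _ _ N).trans
      (add_le_add le_rfl (hd3 N)))
  intro v hv
  by_cases h : (D : 𝓞 E) ∈ v.asIdeal
  · exact Or.inl h
  · exact Or.inr ⟨hv, h⟩

end desc

section mult

theorem zp {K : Type} [Field K] {x : K} (hx : x ≠ 0) (n : ℤ) :
    x ^ n * x ^ (-n).toNat = x ^ n.toNat := by
  rw [← zpow_natCast, ← zpow_natCast, ← zpow_add₀ hx]
  congr 1
  omega

theorem zsum {K : Type} [Field K] {x : K} (hx : x ≠ 0) {σ : Type} (t : Finset σ) (f : σ → ℤ) :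
    x ^ (∑ i ∈ t, f i) = ∏ i ∈ t, x ^ f i := by
  classical
  induction t using Finset.induction_on with
  | empty => simp
  | insert a s ha ih => rw [Finset.sum_insert ha, Finset.prod_insert ha, zpow_add₀ hx, ih]

/-- transfer of a multiplicative relation to a residue field -/
theorem transfer {F ι : Type} [Field F] [Fintype ι] (b : ι → 𝓞 F)
    (hb : ∀ i, b i ≠ 0) (c : 𝓞 F) (m : ℕ) (L : ι → ℤ)
    (h : (c : F) ^ m = ∏ i, (b i : F) ^ L i) {k' : Type} [Field k'] (f : 𝓞 F →+* k')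
    (hf : ∀ i, f (b i) ≠ 0) : f c ^ m = ∏ i, f (b i) ^ L i := by
  have hb' : ∀ i, (b i : F) ≠ 0 := fun i h0 => hb i (RingOfIntegers.ext h0)
  have h1 : c ^ m * ∏ i, b i ^ (-L i).toNat = ∏ i, b i ^ (L i).toNat := by
    apply RingOfIntegers.ext
    show algebraMap (𝓞 F) F _ = algebraMap (𝓞 F) F _
    rw [map_mul, map_pow, map_prod, map_prod]
    simp only [map_pow]
    rw [show algebraMap (𝓞 F) F c = (c : F) from rfl, h, ← Finset.prod_mul_distrib]
    exact Finset.prod_congr rfl fun i _ => zp (hb' i) _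
  have h2 := congrArg f h1
  rw [map_mul, map_pow, map_prod, map_prod] at h2
  simp only [map_pow] at h2
  have h3 : ∏ i, f (b i) ^ (L i).toNat = (∏ i, f (b i) ^ L i) * ∏ i, f (b i) ^ (-L i).toNat := by
    rw [← Finset.prod_mul_distrib]
    exact Finset.prod_congr rfl fun i _ => (zp (hf i) _).symm
  rw [h3] at h2
  exact mul_right_cancel₀ (Finset.prod_ne_zero_iff.2 fun i _ => pow_ne_zero _ (hf i)) h2

/-- a maximal multiplicatively independent subfamily -/
theorem exists_basis {F J : Type} [Field F] [Fintype J] (c : J → F) (hc : ∀ i, c i ≠ 0) :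
    ∃ (ι : Type) (_ : Fintype ι) (e : ι → J) (m : ℕ) (L : J → ι → ℤ), 0 < m ∧
      (∀ n : ι → ℤ, ∏ i, c (e i) ^ n i = 1 → n = 0) ∧
      ∀ j, c j ^ m = ∏ i, c (e i) ^ L j i := by
  classical
  obtain ⟨u, hu⟩ : ∃ u : J → Additive Fˣ, ∀ j, ((Additive.toMul (u j) : Fˣ) : F) = c j :=
    ⟨fun j => Additive.ofMul (Units.mk0 (c j) (hc j)), fun j => rfl⟩
  obtain ⟨s, hs, hmax⟩ := exists_maximal_linearIndepOn ℤ u
  have hsum : ∀ n : s → ℤ, ((Additive.toMul (∑ i, n i • u (i : J)) : Fˣ) : F) =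
      ∏ i : s, c i ^ n i := by
    intro n
    rw [toMul_sum, Units.coe_prod]
    refine Finset.prod_congr rfl fun i _ => ?_
    rw [toMul_zsmul, Units.val_zpow_eq_zpow_val, hu]
  have hspan : ∀ j, ∃ a : ℤ, a ≠ 0 ∧ ∃ l : s → ℤ, ∑ i, l i • u (i : J) = a • u j := by
    intro j
    have h1 : ∃ a : ℤ, a ≠ 0 ∧ a • u j ∈ Submodule.span ℤ (u '' s) := by
      by_cases hj : j ∈ s
      · exact ⟨1, one_ne_zero, by rw [one_smul]; exact Submodule.subset_span ⟨j, hj, rfl⟩⟩
      · exact hmax j hj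
    obtain ⟨a, ha, hm⟩ := h1
    refine ⟨a, ha, ?_⟩
    have h2 : u '' s = Set.range fun i : s => u (i : J) := Set.image_eq_range u s
    rw [h2, Submodule.mem_span_range_iff_exists_fun] at hm
    exact hm
  choose a ha l hl using hspan
  have hdvd : ∀ j, ∃ q : ℤ, ((∏ j, (a j).natAbs : ℕ) : ℤ) = q * a j := by
    intro j
    have h1 : (a j).natAbs ∣ ∏ j, (a j).natAbs := Finset.dvd_prod_of_mem _ (Finset.mem_univ j)
    have h2 : a j ∣ ((∏ j, (a j).natAbs : ℕ) : ℤ) := by
      rw [← Int.natAbs_dvd]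
      exact_mod_cast h1
    obtain ⟨q, hq⟩ := h2
    exact ⟨q, by rw [hq, mul_comm]⟩
  choose q hq using hdvd
  refine ⟨s, inferInstance, fun i => i, ∏ j, (a j).natAbs, fun j i => q j * l j i, ?_, ?_, ?_⟩
  · exact Finset.prod_pos fun j _ => Int.natAbs_pos.2 (ha j)
  · intro n hn
    have h1 : LinearIndependent ℤ (fun i : s => u (i : J)) := hs
    rw [Fintype.linearIndependent_iff] at h1
    have h2 : ∑ i, n i • u (i : J) = 0 := by
      apply Additive.toMul.injective
      apply Units.ext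
      rw [hsum, hn]
      rfl
    funext i
    exact h1 n h2 i
  · intro j
    have h1 : ∑ i : s, (q j * l j i) • u (i : J) = ((∏ j, (a j).natAbs : ℕ) : ℤ) • u j := by
      rw [hq j, mul_smul, ← hl j]
      refine Eq.trans ?_ (map_sum (zsmulAddGroupHom (α := Additive Fˣ) (q j)) _ _).symm
      exact Finset.sum_congr rfl fun i _ => mul_smul _ _ _
    have h2 := hsum fun i => q j * l j i
    rw [h1, toMul_zsmul, Units.val_zpow_eq_zpow_val, hu, zpow_natCast] at h2
    exact h2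

end mult

section densF

/-- a primitive root of prime order stays primitive modulo `Q` -/
theorem prim_quot {R : Type} [CommRing R] [IsDomain R] {k : Type} [Field k] (f : R →+* k) {z : R}
    {r : ℕ} (hr : r.Prime) (hz : IsPrimitiveRoot z r) (hrk : (r : k) ≠ 0) :
    IsPrimitiveRoot (f z) r := by
  have h1 : f z ^ r = 1 := by rw [← map_pow, hz.pow_eq_one, map_one]
  have h2 : f z ≠ 1 := by
    intro h
    apply hrk
    have h3 := congrArg f (hz.geom_sum_eq_zero hr.one_lt)
    rw [map_sum, map_zero] at h3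
    simpa [map_pow, h] using h3
  have : Fact r.Prime := ⟨hr⟩
  rw [IsPrimitiveRoot.iff_orderOf]
  exact orderOf_eq_prime h1 h2

/-- density zero over the field of definition of the `A v` -/
theorem densF (hD : S_DensF) (hI : S_Indep) (hB : S_Bad) {F V T : Type} [Field F] [NumberField F]
    [Fintype V] [Fintype T] (Vs : Finset V) (A : V → 𝓞 F) (X : V → T → 𝓞 F)
    (hcard : Fintype.card T < Vs.card) (hA : ∀ v, A v ≠ 0) (hX : ∀ v s, X v s ≠ 0)
    (hind : ∀ n : V → T → ℤ, (∀ v, v ∉ Vs → n v = 0) →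
      ∏ v, ∏ s, (X v s : F) ^ n v s = 1 → n = 0)
    (hrel : ¬ ∃ (m : ℕ) (c : T → ℤ), 0 < m ∧ ∀ v, (A v : F) ^ m = ∏ s, (X v s : F) ^ c s) :
    Tendsto (dens fun w : HeightOneSpectrum (𝓞 F) =>
      ∃ a : T → ℕ, ∀ v, A v - ∏ s, X v s ^ a s ∈ w.asIdeal) atTop (𝓝 0) := by
  classical
  have hne : ∀ x : 𝓞 F, x ≠ 0 → (x : F) ≠ 0 := fun x hx h0 => hx (RingOfIntegers.ext h0)
  obtain ⟨c0, hc0⟩ : ∃ c0 : V ⊕ (V × T) → 𝓞 F, c0 = Sum.elim A (fun p => X p.1 p.2) := ⟨_, rfl⟩
  have hc0ne : ∀ i, c0 i ≠ 0 := by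
    intro i
    rw [hc0]
    rcases i with v | p
    · exact hA v
    · exact hX p.1 p.2
  obtain ⟨ι, _, e, m, L, hm, hli, hL⟩ := exists_basis (fun i => (c0 i : F))
    (fun i => hne _ (hc0ne i))
  have hLA : ∀ v, (A v : F) ^ m = ∏ i, (c0 (e i) : F) ^ L (Sum.inl v) i := by
    intro v
    have := hL (Sum.inl v)
    simpa only [hc0, Sum.elim_inl] using this
  have hLX : ∀ v s, (X v s : F) ^ m = ∏ i, (c0 (e i) : F) ^ L (Sum.inr (v, s)) i := by
    intro v s
    have := hL (Sum.inr (v, s))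
    simpa only [hc0, Sum.elim_inr] using this
  have hbne : ∀ i, (c0 (e i) : F) ≠ 0 := fun i => hne _ (hc0ne _)
  obtain ⟨r0, hr0⟩ := hI F ι (fun i => c0 (e i)) (fun i => hc0ne _) hli
  obtain ⟨r1, hr1⟩ := hB ι V T Vs (fun v => L (Sum.inl v)) (fun v s => L (Sum.inr (v, s))) hcard
    (by
      intro n hn hsum
      have h1 : ∏ v, ∏ s, (X v s : F) ^ ((m : ℤ) * n v s) = 1 := by
        have h2 : ∀ v s, (X v s : F) ^ ((m : ℤ) * n v s) =
            ∏ i, (c0 (e i) : F) ^ (n v s * L (Sum.inr (v, s)) i) := by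
          intro v s
          rw [zpow_mul, zpow_natCast, hLX, ← Finset.prod_zpow]
          refine Finset.prod_congr rfl fun i _ => ?_
          rw [← zpow_mul, mul_comm]
        have h3 : ∏ v, ∏ s, (X v s : F) ^ ((m : ℤ) * n v s) =
            ∏ i, (c0 (e i) : F) ^ (∑ v, ∑ s, n v s * L (Sum.inr (v, s)) i) := by
          calc ∏ v, ∏ s, (X v s : F) ^ ((m : ℤ) * n v s) =
              ∏ v, ∏ s, ∏ i, (c0 (e i) : F) ^ (n v s * L (Sum.inr (v, s)) i) := by
                refine Finset.prod_congr rfl fun v _ => Finset.prod_congr rfl fun s _ => h2 v s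
            _ = ∏ v, ∏ i, ∏ s, (c0 (e i) : F) ^ (n v s * L (Sum.inr (v, s)) i) := by
                refine Finset.prod_congr rfl fun v _ => Finset.prod_comm
            _ = ∏ i, ∏ v, ∏ s, (c0 (e i) : F) ^ (n v s * L (Sum.inr (v, s)) i) :=
                Finset.prod_comm
            _ = _ := by
                refine Finset.prod_congr rfl fun i _ => ?_
                rw [zsum (hbne i)]
                refine Finset.prod_congr rfl fun v _ => ?_
                rw [zsum (hbne i)]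
        rw [h3]
        refine Finset.prod_eq_one fun i _ => ?_
        rw [hsum i, zpow_zero]
      have h4 := hind (fun v s => (m : ℤ) * n v s) (by
        intro v hv
        funext s
        rw [hn v hv]
        simp) h1
      funext v s
      have h5 := congrFun (congrFun h4 v) s
      simp only [Pi.zero_apply, mul_eq_zero] at h5
      rcases h5 with h5 | h5
      · exact absurd h5 (by exact_mod_cast hm.ne')
      · exact h5)
    (by
      rintro ⟨m', c, hm', hmc⟩
      apply hrel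
      refine ⟨m * (m'.natAbs * m'.natAbs), fun s => m * (m' * c s), by
        have := Int.natAbs_pos.2 hm'
        positivity, fun v => ?_⟩
      have e1 : ∀ i, (m' * m') * L (Sum.inl v) i =
          ∑ s, (m' * c s) * L (Sum.inr (v, s)) i := by
        intro i
        rw [mul_assoc, hmc v i, Finset.mul_sum]
        exact Finset.sum_congr rfl fun s _ => by ring
      have e2 : (A v : F) ^ (m * (m'.natAbs * m'.natAbs)) =
          ∏ i, (c0 (e i) : F) ^ ((m' * m') * L (Sum.inl v) i) := by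
        rw [pow_mul, hLA v, ← Finset.prod_pow]
        refine Finset.prod_congr rfl fun i _ => ?_
        rw [← zpow_natCast, ← zpow_mul]
        congr 1
        push_cast
        rw [abs_mul_abs_self]
        ring
      rw [e2]
      have e3 : ∀ s, (X v s : F) ^ ((m : ℤ) * (m' * c s)) =
          ∏ i, (c0 (e i) : F) ^ ((m' * c s) * L (Sum.inr (v, s)) i) := by
        intro s
        rw [zpow_mul, zpow_natCast, hLX, ← Finset.prod_zpow]
        refine Finset.prod_congr rfl fun i _ => ?_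
        rw [← zpow_mul, mul_comm]
      rw [Finset.prod_congr rfl fun s _ => e3 s, Finset.prod_comm]
      refine Finset.prod_congr rfl fun i _ => ?_
      rw [e1 i, zsum (hbne i)])
  refine hD F ι (fun i => c0 (e i)) (max r0 r1) (fun r => {x : ι → ZMod r | ∃ a : T → ZMod r,
    ∀ v, ∑ i, (L (Sum.inl v) i : ZMod r) * x i =
      ∑ s, a s * ∑ i, (L (Sum.inr (v, s)) i : ZMod r) * x i}) (fun i => hc0ne _)
    (fun r hr hrr x hx => hr0 r hr (lt_of_le_of_lt (le_max_left _ _) hrr) x hx)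
    (fun r hr hrr => hr1 r hr (lt_of_le_of_lt (le_max_right _ _) hrr)) _ ?_
  rintro w ⟨a, ha⟩ r hr _ hrw hbw k hk Q hQ hQw z hz x hx
  refine ⟨fun s => (a s : ZMod r), fun v => ?_⟩
  let _ : Field (OO F ⧸ Q) := Ideal.Quotient.field Q
  have : NeZero r := ⟨hr.ne_zero⟩
  obtain ⟨f, hf⟩ : ∃ f : 𝓞 F →+* OO F ⧸ Q,
      f = (Ideal.Quotient.mk Q).comp (algebraMap (𝓞 F) (OO F)) := ⟨_, rfl⟩
  have hker : ∀ y : 𝓞 F, f y = 0 ↔ y ∈ w.asIdeal := by
    intro y
    rw [hf, RingHom.comp_apply, Ideal.Quotient.eq_zero_iff_mem, ← hQw, Ideal.mem_comap]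
  have hfb : ∀ i, f (c0 (e i)) ≠ 0 := fun i h => hbw i ((hker _).1 h)
  have hζ : IsPrimitiveRoot (Ideal.Quotient.mk Q z) r := by
    refine prim_quot (Ideal.Quotient.mk Q) hr hz ?_
    intro h
    apply hrw
    rw [← hker, map_natCast]
    exact h
  have hζ0 : Ideal.Quotient.mk Q z ≠ 0 := hζ.ne_zero hr.ne_zero
  obtain ⟨ζ, hζe⟩ : ∃ ζ, ζ = Ideal.Quotient.mk Q z := ⟨_, rfl⟩
  rw [← hζe] at hζ hζ0
  have hfbk : ∀ i, f (c0 (e i)) ^ k = ζ ^ (x i).val := by
    intro i
    have h1 := hx i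
    rw [← Ideal.Quotient.eq_zero_iff_mem, map_sub, map_pow, map_pow, sub_eq_zero] at h1
    rw [hf, hζe]
    exact h1
  have hgen : ∀ (c : 𝓞 F) (l : ι → ℤ), (c : F) ^ m = ∏ i, (c0 (e i) : F) ^ l i →
      f c ^ (m * k) = ζ ^ (∑ i, l i * ((x i).val : ℤ)) := by
    intro c l hc
    rw [pow_mul, transfer (fun i => c0 (e i)) (fun i => hc0ne _) c m l hc f hfb,
      ← Finset.prod_pow, zsum hζ0]
    refine Finset.prod_congr rfl fun i _ => ?_
    rw [← zpow_natCast, ← zpow_mul, mul_comm (l i), zpow_mul, zpow_natCast, hfbk i,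
      ← zpow_natCast, ← zpow_mul, mul_comm (l i)]
  have h1 : f (A v) = ∏ s, f (X v s) ^ a s := by
    have h2 := (hker _).2 (ha v)
    rw [map_sub, map_prod, sub_eq_zero] at h2
    simpa only [map_pow] using h2
  have h3 : ζ ^ (∑ i, L (Sum.inl v) i * ((x i).val : ℤ)) =
      ζ ^ (∑ s, (a s : ℤ) * ∑ i, L (Sum.inr (v, s)) i * ((x i).val : ℤ)) := by
    rw [← hgen (A v) _ (hLA v), h1, ← Finset.prod_pow, zsum hζ0]
    refine Finset.prod_congr rfl fun s _ => ?_
    rw [← pow_mul, mul_comm (a s), pow_mul, hgen (X v s) _ (hLX v s), mul_comm, zpow_mul,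
      zpow_natCast]
  have h4 : ζ ^ ((∑ i, L (Sum.inl v) i * ((x i).val : ℤ)) -
      ∑ s, (a s : ℤ) * ∑ i, L (Sum.inr (v, s)) i * ((x i).val : ℤ)) = 1 := by
    rw [zpow_sub₀ hζ0, h3, div_self (zpow_ne_zero _ hζ0)]
  have h5 := (hζ.zpow_eq_one_iff_dvd _).1 h4
  have h6 := (ZMod.intCast_zmod_eq_zero_iff_dvd _ r).2 h5
  push_cast at h6
  rw [sub_eq_zero] at h6
  have h7 : ∀ i, (((x i).val : ℕ) : ZMod r) = x i := fun i => ZMod.natCast_zmod_val (x i)
  simpa only [h7] using h6

end densF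

/-- **Part A5.** -/
theorem main : S_DensF → S_Indep → S_Bad → Pool.Agent.H500.HC.S_KD := by
  intro hD hI hB E V T _ _ _ _ j Vs A X hcard hA hX hind hrel
  classical
  let _ : Algebra E QBar := j.toAlgebra
  have hint : ∀ v, IsIntegral E (A v : QBar) := by
    intro v
    have h1 : IsIntegral ℤ (A v : QBar) := (A v).2
    exact h1.tower_top
  set F : IntermediateField E QBar := IntermediateField.adjoin E (Set.range fun v => (A v : QBar))
    with hF
  have hfd : FiniteDimensional E F := by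
    have : Finite (Set.range fun v => (A v : QBar)) := inferInstance
    apply IntermediateField.finiteDimensional_adjoin
    rintro _ ⟨v, rfl⟩
    exact hint v
  have hnf : NumberField F := NumberField.of_module_finite E F
  have hAF : ∀ v, (A v : QBar) ∈ F := fun v => IntermediateField.subset_adjoin _ _ ⟨v, rfl⟩
  have hmk : ∀ v, ∃ C' : 𝓞 F, RingOfIntegers.mapRingHom (F.val : F →+* QBar) C' = A v := by
    intro v
    have hint : IsIntegral ℤ (⟨(A v : QBar), hAF v⟩ : F) :=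
      (isIntegral_algebraMap_iff (algebraMap F QBar).injective).1 (A v).2
    exact ⟨⟨⟨(A v : QBar), hAF v⟩, hint⟩, RingOfIntegers.ext rfl⟩
  choose A' hA' using hmk
  set i0 : 𝓞 F →+* ZBar := RingOfIntegers.mapRingHom (F.val : F →+* QBar) with hi0
  have hcomp : i0.comp (algebraMap (𝓞 E) (𝓞 F)) = RingOfIntegers.mapRingHom j := by
    ext x
    rfl
  have hinj : Function.Injective (algebraMap (𝓞 E) (𝓞 F)) := FaithfulSMul.algebraMap_injective _ _
  have hgen : ∀ x : F, x ∈ Algebra.adjoin E (Set.range fun v => (A' v : F)) := by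
    intro x
    have h1 : F.toSubalgebra = Algebra.adjoin E (Set.range fun v => (A v : QBar)) :=
      IntermediateField.adjoin_toSubalgebra_of_isAlgebraic
        fun x hx => by
          obtain ⟨v, rfl⟩ := hx
          exact (hint v).isAlgebraic
    have h2 : (x : QBar) ∈ Algebra.adjoin E (Set.range fun v => (A v : QBar)) := by
      rw [← h1]
      exact x.2
    have h3 : (Set.range fun v => (A v : QBar)) = F.val '' (Set.range fun v => (A' v : F)) := by
      rw [← Set.range_comp]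
      congr 1
      funext v
      exact (congrArg (fun c : ZBar => (c : QBar)) (hA' v)).symm
    rw [h3, ← AlgHom.map_adjoin] at h2
    obtain ⟨y, hy, hyx⟩ := h2
    have h4 : y = x := F.val.toRingHom.injective hyx
    rw [← h4]
    exact hy
  have hXF : ∀ v s, ((algebraMap (𝓞 E) (𝓞 F) (X v s) : 𝓞 F) : F) = algebraMap E F (X v s : E) :=
    fun v s => rfl
  refine descend A' hgen (fun w : HeightOneSpectrum (𝓞 F) =>
      ∃ a : T → ℕ, ∀ v, A' v - ∏ s, algebraMap (𝓞 E) (𝓞 F) (X v s) ^ a s ∈ w.asIdeal)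
    (densF hD hI hB Vs A' (fun v s => algebraMap (𝓞 E) (𝓞 F) (X v s)) hcard ?_ ?_ ?_ ?_) _ ?_
  · intro v h0
    apply hA v
    rw [← hA' v, h0, map_zero]
  · intro v s h0
    apply hX v s
    exact hinj (h0.trans (map_zero _).symm)
  · intro n hn h1
    refine hind n hn ?_
    apply (algebraMap E F).injective
    rw [map_one, ← h1, map_prod]
    refine Finset.prod_congr rfl fun v _ => ?_
    rw [map_prod]
    refine Finset.prod_congr rfl fun s _ => ?_
    rw [map_zpow₀]
    rfl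
  · rintro ⟨m, c, hm, hc⟩
    apply hrel
    refine ⟨m, c, hm, fun v => ?_⟩
    have h1 := congrArg (fun y : F => (y : QBar)) (hc v)
    have h2 : ((A' v : F) : QBar) = (A v : QBar) := congrArg (fun c : ZBar => (c : QBar)) (hA' v)
    have h3 : (((∏ s, ((algebraMap (𝓞 E) (𝓞 F) (X v s) : 𝓞 F) : F) ^ c s : F)) : QBar) =
        ∏ s, (j (X v s : E)) ^ c s := by
      show F.val (∏ s, ((algebraMap (𝓞 E) (𝓞 F) (X v s) : 𝓞 F) : F) ^ c s) = _
      rw [map_prod]
      refine Finset.prod_congr rfl fun s _ => ?_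
      rw [map_zpow₀]
      rfl
    rw [← h3, ← h1, ← h2]
    rfl
  · rintro lam ⟨k, _, ψ, hker, a, ha⟩
    have h1 : ∀ y : 𝓞 E, ψ (RingOfIntegers.mapRingHom j y) = (ψ.comp i0) (algebraMap (𝓞 E) (𝓞 F) y) := by
      intro y
      rw [← hcomp]
      rfl
    refine ⟨k, inferInstance, ψ.comp i0, ?_, fun v => ⟨∏ s, X v s ^ a s, ?_⟩, fun μ hμ => ?_⟩
    · rw [RingHom.comp_assoc, hcomp]
      exact hker
    · rw [RingHom.comp_apply, hA', ha v, map_prod, map_prod]
      refine Finset.prod_congr rfl fun s _ => ?_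
      rw [map_pow, map_pow, h1]
    · refine ⟨a, fun v => ?_⟩
      rw [← hμ, RingHom.mem_ker, map_sub, map_prod, sub_eq_zero, RingHom.comp_apply, hA', ha v]
      refine Finset.prod_congr rfl fun s _ => ?_
      rw [map_pow, h1]

end Pool.Agent.H870.HC.KD
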